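import Pool.Agent.Helper50.HT.Stmts

/-!
# Sheet HT, row ATM: existence of the arrangement of the electrons of one atom
-/

set_option autoImplicit false

namespace Pool.Agent.Helper41.HT

open Pool.Agent.Helper95 Pool.Agent.Helper95.PW Pool.Agent.Helper95.LN Pool.Agent.Helper50.HT

theorem ATM (h1 : ST_FST) (h2 : ST_FTA) (h3 : ST_NUM) : ST_ATM := by
  intro C1 κ D hC1 hκ hD
  obtain ⟨C, hC, hF⟩ := h1
  obtain ⟨c, x0, hc, hx0, hN⟩ := h3 C C1 κ D hC hC1 hκ hD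
  refine ⟨c, x0, hc, hx0, ?_⟩
  intro x N hx hl hu
  obtain ⟨K, L, s, t, hs, hst, hK, hL, hKm, hmK, htD, hsD, hen⟩ := hN x N hx hl hu
  have he : N % 2 ≤ 1 := by omega
  obtain ⟨S, r, hcard, hneg, hr, hn, h0, hsep, e1, e2, e3⟩ :=
    hF K L (N / 2) (N % 2) s t hs hst hK hL hKm hmK he
  have hcard' : S.card = N := by rw [hcard]; omega
  refine h2 C1 D (-(c * x ^ 7)) N S r hcard' hneg
    (fun v hv => ⟨(hr v hv).1, (hr v hv).2.trans htD⟩)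
    (fun v hv => (hn v hv).trans hsD) h0 hsep ?_
  have a1 : C1 * (∑ v ∈ S, 1 / r v ^ 2) ≤
      C1 * (C * ((K : ℝ) ^ 3 / s ^ 2 + (N / 2 : ℕ) / t ^ 2)) :=
    mul_le_mul_of_nonneg_left e1 hC1.le
  have a2 : (N : ℝ) * ((K : ℝ) ^ 2 / s) ≤ N * (∑ v ∈ S, 1 / nr v) :=
    mul_le_mul_of_nonneg_left e2 (Nat.cast_nonneg N)
  have a3 : 1 / 2 * (∑ v ∈ S, ∑ w ∈ S, if v = w then 0 else 1 / nr (v - w)) ≤
      1 / 2 * (C * ((K : ℝ) ^ 5 / s + (K : ℝ) ^ 3 * ((L : ℝ) ^ 2 * Real.sqrt L) / t +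
        (L : ℝ) ^ 5 / t)) :=
    mul_le_mul_of_nonneg_left e3 (by norm_num)
  linarith

end Pool.Agent.Helper41.HT
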