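import Pool.Agent.Helper50.HT.Stmts

/-!
# Sheet HT, row TRX: energy of the molecule in the trial state
-/

set_option autoImplicit false

namespace Pool.Agent.Helper41.HT

open MeasureTheory Filter Pool.Agent.Helper95 Pool.Agent.Helper95.PW Pool.Agent.Helper95.LN
  Pool.Agent.Helper50.HT

namespace TR

lemma nr_eq (y : R3) : nr y = ‖(WithLp.toLp 2 y : EuclideanSpace ℝ (Fin 3))‖ := by
  rw [EuclideanSpace.norm_eq]
  simp [nr, Fin.sum_univ_three, sq_abs]

lemma nr_nonneg (y : R3) : 0 ≤ nr y := Real.sqrt_nonneg _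

lemma nr_neg (y : R3) : nr (-y) = nr y := by
  simp [nr]

lemma nr_zero : nr (0 : R3) = 0 := by
  simp [nr]

lemma nr_add_le (u v : R3) : nr (u + v) ≤ nr u + nr v := by
  rw [nr_eq, nr_eq, nr_eq, WithLp.toLp_add]
  exact norm_add_le _ _

lemma half_sum {n : ℕ} (S : Fin n → Fin n → ℝ) (hs : ∀ i j, S i j = S j i)
    (h0 : ∀ i, S i i = 0) :
    2 * (∑ i, ∑ j, if i < j then S i j else 0) = ∑ i, ∑ j, S i j := by
  have e : ∀ i j, S i j = (if i < j then S i j else 0) + (if j < i then S i j else 0) := by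
    intro i j
    rcases lt_trichotomy i j with h | h | h
    · rw [if_pos h, if_neg (not_lt.2 h.le), add_zero]
    · subst h
      rw [if_neg (lt_irrefl i), h0, add_zero]
    · rw [if_neg (not_lt.2 h.le), if_pos h, zero_add]
  have e2 : ∑ i, ∑ j, (if j < i then S i j else 0) = ∑ i, ∑ j, if i < j then S i j else 0 := by
    rw [Finset.sum_comm]
    refine Finset.sum_congr rfl fun i _ => Finset.sum_congr rfl fun j _ => ?_
    rw [hs j i]
  have e3 : ∑ i, ∑ j, S i j = (∑ i, ∑ j, if i < j then S i j else 0) +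
      ∑ i, ∑ j, if j < i then S i j else 0 := by
    rw [← Finset.sum_add_distrib]
    refine Finset.sum_congr rfl fun i _ => ?_
    rw [← Finset.sum_add_distrib]
    exact Finset.sum_congr rfl fun j _ => e i j
  rw [e3, e2]
  ring

lemma sum_sig {M : ℕ} (Z : Fin M → ℕ) (F : ((j : Fin M) × Fin (Z j)) → ℝ) :
    ∑ k : Fin (∑ j, Z j), F (finSigmaFinEquiv.symm k) = ∑ j, ∑ i, F ⟨j, i⟩ := by
  rw [Equiv.sum_comp finSigmaFinEquiv.symm F, Fintype.sum_sigma]

end TR

open TR

theorem TRX (h1 : ST_PTC) (h2 : ST_ATM) (h3 : ST_IAB) (h4 : LN.ST_PK4) : ST_TRX := by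
  obtain ⟨C1, hC1, hP⟩ := h1
  obtain ⟨C2, hC2, hI⟩ := h3
  obtain ⟨C3, hC3, hK⟩ := h4
  intro κ d hκ hd
  have hD : 0 < d / 4 := by positivity
  obtain ⟨c1, x1, hc1, hx1, hA⟩ := h2 C1 κ (d / 4) hC1 hκ hD
  refine ⟨c1 / 2, max x1 (C2 * C3 * (d / 4) ^ 3 / (d ^ 4 * c1)), by positivity,
    le_max_of_le_left hx1, ?_⟩
  intro n M X Z E x hx hS hn hZl hZu hE
  subst hn
  have hxx1 : x1 ≤ x := (le_max_left _ _).trans hx
  have hx2 : C2 * C3 * (d / 4) ^ 3 / (d ^ 4 * c1) ≤ x := (le_max_right _ _).trans hx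
  have hx0 : 0 < x := by linarith
  choose P a hat using fun j => hA x (Z j) hxx1 (hZl j) (hZu j)
  let pos : ((j : Fin M) × Fin (Z j)) → R3 := fun q => X q.1 + P q.1 q.2
  let rad : ((j : Fin M) × Fin (Z j)) → ℝ := fun q => a q.1 q.2
  have hfar : ∀ (i j : Fin M), i ≠ j → 4 * d ≤ nr (X i - X j) := hS
  have hsep : ∀ q q' : ((j : Fin M) × Fin (Z j)), q ≠ q' →
      3 * (rad q + rad q') ≤ nr (pos q - pos q') := by
    rintro ⟨i, α⟩ ⟨j, β⟩ hne
    by_cases hij : i = j
    · subst hij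
      have hαβ : α ≠ β := fun h => hne (by rw [h])
      have h5 := (hat i).sep α β hαβ
      have h6 : pos ⟨i, α⟩ - pos ⟨i, β⟩ = P i α - P i β := by
        show X i + P i α - (X i + P i β) = _
        abel
      rw [h6]
      exact h5
    · have h5 := hfar i j hij
      have h6 : X i - X j = (pos ⟨i, α⟩ - pos ⟨j, β⟩) + (-(P i α) + P j β) := by
        show X i - X j = (X i + P i α - (X j + P j β)) + (-(P i α) + P j β)
        abel
      have h7 := nr_add_le (pos ⟨i, α⟩ - pos ⟨j, β⟩) (-(P i α) + P j β)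
      have h8 := nr_add_le (-(P i α)) (P j β)
      rw [nr_neg] at h8
      rw [← h6] at h7
      have h9 := (hat i).inD α
      have h10 := (hat j).inD β
      have h11 : rad ⟨i, α⟩ ≤ d / 4 := (hat i).small α
      have h12 : rad ⟨j, β⟩ ≤ d / 4 := (hat j).small β
      linarith
  have hnuc : ∀ (q : (j : Fin M) × Fin (Z j)) (j : Fin M),
      pos q = X j ∨ 2 * rad q ≤ nr (pos q - X j) := by
    rintro ⟨i, α⟩ j
    by_cases hij : i = j
    · subst hij
      have h6 : pos ⟨i, α⟩ - X i = P i α := by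
        show X i + P i α - X i = _
        abel
      rcases (hat i).nuc α with h | h
      · left
        show X i + P i α = X i
        rw [h, add_zero]
      · right
        rw [h6]
        exact h
    · right
      have h5 := hfar i j hij
      have h6 : X i - X j = (pos ⟨i, α⟩ - X j) + -(P i α) := by
        show X i - X j = (X i + P i α - X j) + -(P i α)
        abel
      have h7 := nr_add_le (pos ⟨i, α⟩ - X j) (-(P i α))
      rw [nr_neg, ← h6] at h7
      have h9 := (hat i).inD α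
      have h11 : rad ⟨i, α⟩ ≤ d / 4 := (hat i).small α
      linarith
  have hE1 : E ≤ C1 * (∑ k : Fin (∑ j, Z j), 1 / rad (finSigmaFinEquiv.symm k) ^ 2) -
      (∑ k : Fin (∑ j, Z j), ∑ j, (Z j : ℝ) / nr (pos (finSigmaFinEquiv.symm k) - X j)) +
      ∑ k : Fin (∑ j, Z j), ∑ l : Fin (∑ j, Z j), if k < l then
        1 / nr (pos (finSigmaFinEquiv.symm k) - pos (finSigmaFinEquiv.symm l)) else 0 :=
    hP (∑ j, Z j) M X (fun j => (Z j : ℝ)) E (fun k => pos (finSigmaFinEquiv.symm k))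
      (fun k => rad (finSigmaFinEquiv.symm k)) (fun k => (hat _).pos _)
      (fun j => Nat.cast_nonneg _)
      (fun k l hkl => hsep _ _ fun h => hkl (finSigmaFinEquiv.symm.injective h))
      (fun k j => hnuc _ j) hE
  set At : Fin M → Fin M → ℝ := fun i j => (Z j : ℝ) * ∑ α, 1 / nr (X i - X j + P i α) with hAt
  set Rp : Fin M → Fin M → ℝ := fun i j => ∑ α, ∑ β, 1 / nr (X i - X j + P i α - P j β) with hRp
  set Nu : Fin M → Fin M → ℝ := fun i j => (Z i : ℝ) * (Z j : ℝ) / nr (X i - X j) with hNu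
  have s1 : ∑ k : Fin (∑ j, Z j), 1 / rad (finSigmaFinEquiv.symm k) ^ 2 =
      ∑ i, ∑ α, 1 / a i α ^ 2 := sum_sig Z (fun q => 1 / rad q ^ 2)
  have s2 : ∑ k : Fin (∑ j, Z j), ∑ j, (Z j : ℝ) / nr (pos (finSigmaFinEquiv.symm k) - X j) =
      ∑ i, ∑ j, At i j := by
    rw [sum_sig Z (fun q => ∑ j, (Z j : ℝ) / nr (pos q - X j))]
    refine Finset.sum_congr rfl fun i _ => ?_
    rw [Finset.sum_comm]
    refine Finset.sum_congr rfl fun j _ => ?_
    simp only [hAt]
    rw [Finset.mul_sum]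
    refine Finset.sum_congr rfl fun α _ => ?_
    rw [mul_one_div]
    have : pos ⟨i, α⟩ - X j = X i - X j + P i α := by
      show X i + P i α - X j = _
      abel
    rw [this]
  have s3 : 2 * (∑ k : Fin (∑ j, Z j), ∑ l : Fin (∑ j, Z j), if k < l then
      1 / nr (pos (finSigmaFinEquiv.symm k) - pos (finSigmaFinEquiv.symm l)) else 0) =
      ∑ i, ∑ j, Rp i j := by
    rw [half_sum (fun k l : Fin (∑ j, Z j) =>
      1 / nr (pos (finSigmaFinEquiv.symm k) - pos (finSigmaFinEquiv.symm l)))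
      (fun k l => by
        show 1 / nr (pos (finSigmaFinEquiv.symm k) - pos (finSigmaFinEquiv.symm l)) =
          1 / nr (pos (finSigmaFinEquiv.symm l) - pos (finSigmaFinEquiv.symm k))
        rw [← nr_neg, neg_sub])
      (fun k => by
        show 1 / nr (pos (finSigmaFinEquiv.symm k) - pos (finSigmaFinEquiv.symm k)) = 0
        rw [sub_self, nr_zero, div_zero])]
    have t1 : ∀ q : (j : Fin M) × Fin (Z j), ∑ l : Fin (∑ j, Z j),
        1 / nr (pos q - pos (finSigmaFinEquiv.symm l)) =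
        ∑ j, ∑ β, 1 / nr (pos q - pos ⟨j, β⟩) := fun q =>
      sum_sig Z (fun q' => 1 / nr (pos q - pos q'))
    simp only [t1]
    rw [sum_sig Z (fun q => ∑ j, ∑ β, 1 / nr (pos q - pos ⟨j, β⟩))]
    refine Finset.sum_congr rfl fun i _ => ?_
    rw [Finset.sum_comm]
    refine Finset.sum_congr rfl fun j _ => ?_
    simp only [hRp]
    refine Finset.sum_congr rfl fun α _ => Finset.sum_congr rfl fun β _ => ?_
    have : pos ⟨i, α⟩ - pos ⟨j, β⟩ = X i - X j + P i α - P j β := by
      show X i + P i α - (X j + P j β) = _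
      abel
    rw [this]
  have s4 : 2 * nucR X (fun j => (Z j : ℝ)) = ∑ i, ∑ j, Nu i j := by
    rw [← half_sum Nu (fun i j => by
        simp only [hNu]
        rw [← nr_neg, neg_sub, mul_comm]) (fun i => by
        simp only [hNu]
        rw [sub_self, nr_zero, div_zero])]
    rfl
  -- the interaction
  have hAij : ∀ i j, i ≠ j → Rp i j - At j i - At i j + Nu i j ≤
      C2 * x ^ 6 * (d / 4) ^ 3 * (1 / nr (X i - X j) ^ 4) := by
    intro i j hij
    have h5 := hfar i j hij
    have h6 := hI (Z i) (Z j) (P i) (P j) (X i - X j) (d / 4) hD (hat i).inD (hat j).inD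
      (by linarith) (hat i).sym (hat j).sym
    have h7 := (abs_le.1 h6).2
    have h8 : (Z i : ℝ) * (∑ l, 1 / nr (X i - X j - P j l)) = At j i := by
      simp only [hAt]
      congr 1
      refine Finset.sum_congr rfl fun β _ => ?_
      rw [← nr_neg]
      congr 2
      abel
    rw [h8] at h7
    have h9 : (Z i : ℝ) * (Z j : ℝ) ≤ x ^ 6 := by
      calc (Z i : ℝ) * (Z j : ℝ) ≤ x ^ 3 * x ^ 3 :=
            mul_le_mul (hZu i) (hZu j) (Nat.cast_nonneg _) (by positivity)
        _ = x ^ 6 := by ring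
    have h10 : C2 * (Z i : ℝ) * (Z j : ℝ) * (d / 4) ^ 3 / nr (X i - X j) ^ 4 ≤
        C2 * x ^ 6 * (d / 4) ^ 3 * (1 / nr (X i - X j) ^ 4) := by
      have h11 : 0 ≤ (d / 4) ^ 3 * (1 / nr (X i - X j) ^ 4) := by
        have := nr_nonneg (X i - X j)
        positivity
      calc C2 * (Z i : ℝ) * (Z j : ℝ) * (d / 4) ^ 3 / nr (X i - X j) ^ 4
          = C2 * ((Z i : ℝ) * (Z j : ℝ)) * ((d / 4) ^ 3 * (1 / nr (X i - X j) ^ 4)) := by ring
        _ ≤ C2 * x ^ 6 * ((d / 4) ^ 3 * (1 / nr (X i - X j) ^ 4)) :=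
            mul_le_mul_of_nonneg_right (mul_le_mul_of_nonneg_left h9 hC2.le) h11
        _ = _ := by ring
    exact h7.trans h10
  have hrow : ∀ i, C1 * (∑ α, 1 / a i α ^ 2) +
      1 / 2 * (∑ j, (Rp i j - At j i - At i j + Nu i j)) ≤ -(c1 / 2 * x ^ 7) := by
    intro i
    have t1 : ∀ j, Rp i j - At j i - At i j + Nu i j ≤
        (if i = j then Rp i i - At i i - At i i + Nu i i else 0) +
        C2 * x ^ 6 * (d / 4) ^ 3 * (if d ≤ nr (X i - X j) then 1 / nr (X i - X j) ^ 4 else 0) := by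
      intro j
      by_cases hij : i = j
      · subst hij
        rw [if_pos rfl, sub_self, nr_zero, if_neg (not_le.2 hd), mul_zero, add_zero]
      · rw [if_neg hij, if_pos (by linarith [hfar i j hij]), zero_add]
        exact hAij i j hij
    have t2 : ∑ j, (Rp i j - At j i - At i j + Nu i j) ≤
        (Rp i i - At i i - At i i + Nu i i) + C2 * x ^ 6 * (d / 4) ^ 3 * (C3 / d ^ 4) := by
      refine (Finset.sum_le_sum fun j _ => t1 j).trans ?_
      rw [Finset.sum_add_distrib, Finset.sum_ite_eq Finset.univ i, if_pos (Finset.mem_univ i),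
        ← Finset.mul_sum]
      have := hK M X d (X i) hd hS
      have h12 : 0 ≤ C2 * x ^ 6 * (d / 4) ^ 3 := by positivity
      linarith [mul_le_mul_of_nonneg_left this h12]
    have t3 : Nu i i = 0 := by
      simp only [hNu]
      rw [sub_self, nr_zero, div_zero]
    have t4 : At i i = (Z i : ℝ) * ∑ α, 1 / nr (P i α) := by
      simp only [hAt]
      rw [sub_self]
      simp only [zero_add]
    have t5 : Rp i i = 2 * (∑ k, ∑ l, if k < l then 1 / nr (P i k - P i l) else 0) := by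
      rw [half_sum (fun k l => 1 / nr (P i k - P i l))
        (fun k l => by
          show 1 / nr (P i k - P i l) = 1 / nr (P i l - P i k)
          rw [← nr_neg, neg_sub])
        (fun k => by
          show 1 / nr (P i k - P i k) = 0
          rw [sub_self, nr_zero, div_zero])]
      simp only [hRp]
      rw [sub_self]
      simp only [zero_add]
    have t6 := (hat i).en
    have t7 : C2 * x ^ 6 * (d / 4) ^ 3 * (C3 / d ^ 4) ≤ c1 * x ^ 7 := by
      have h13 : C2 * C3 * (d / 4) ^ 3 ≤ x * (d ^ 4 * c1) := (div_le_iff₀ (by positivity)).1 hx2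
      have h14 : C2 * x ^ 6 * (d / 4) ^ 3 * (C3 / d ^ 4) =
          (C2 * C3 * (d / 4) ^ 3) * (x ^ 6 / d ^ 4) := by ring
      have h15 : c1 * x ^ 7 = (x * (d ^ 4 * c1)) * (x ^ 6 / d ^ 4) := by
        field_simp
      rw [h14, h15]
      exact mul_le_mul_of_nonneg_right h13 (by positivity)
    rw [t3, t4, t5] at t2
    linarith
  have hsum : C1 * (∑ i, ∑ α, 1 / a i α ^ 2) +
      1 / 2 * (∑ i, ∑ j, (Rp i j - At j i - At i j + Nu i j)) ≤ -(c1 / 2 * M * x ^ 7) := by
    have h16 := Finset.sum_le_sum fun i (_ : i ∈ Finset.univ) => hrow i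
    rw [Finset.sum_add_distrib, ← Finset.mul_sum, ← Finset.mul_sum, Finset.sum_const,
      Finset.card_univ, Fintype.card_fin, nsmul_eq_mul] at h16
    refine h16.trans (le_of_eq ?_)
    ring
  have s5 : ∑ i, ∑ j, (Rp i j - At j i - At i j + Nu i j) =
      (∑ i, ∑ j, Rp i j) - 2 * (∑ i, ∑ j, At i j) + ∑ i, ∑ j, Nu i j := by
    have h17 : ∑ i, ∑ j, At j i = ∑ i, ∑ j, At i j := Finset.sum_comm
    simp only [Finset.sum_add_distrib, Finset.sum_sub_distrib]
    rw [h17]
    ring
  rw [s5] at hsum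
  rw [s1, s2] at hE1
  linarith

end Pool.Agent.Helper41.HT
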